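import Pool.Agent.ATB.Stmts

set_option autoImplicit false

/-!
# Squad ATB, row VAN: the vanishing theorem
-/

namespace Pool.Agent.ATB.H63

open scoped TensorProduct
open Module

section aux

variable {K : Type} [Field K] {n : ℕ}

theorem exactAt_bot {C : ℤ → Submodule K (AA K n)} {m : ℤ} (h : C m = ⊥) : ExactAt C m := by
  intro η hη _
  rw [h, Submodule.mem_bot] at hη
  exact ⟨0, Submodule.zero_mem _, by rw [hη, map_zero]⟩

theorem Om_bot {k : ℤ} {Z : Multiset (Fin n → K)} {i : ℤ}
    (h : ∀ B D : Multiset (Fin n → K), B + D = Z → (B.card : ℤ) = k + i → Lpow (sp B) i = ⊥) :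
    Om k Z i = ⊥ := by
  rw [eq_bot_iff, Om]
  refine Submodule.span_le.2 ?_
  rintro x ⟨B, D, ω, hω, hZ, hc, rfl⟩
  rw [h B D hZ hc, Submodule.mem_bot] at hω
  rw [hω, TensorProduct.tmul_zero]
  exact Submodule.zero_mem _

theorem OmH_bot {k : ℤ} {Z : Multiset (Fin n → K)} {H : Submodule K (Fin n → K)} {i : ℤ}
    (h : ∀ B D : Multiset (Fin n → K), B + D = Z → sp B = H → (B.card : ℤ) = k + i → Lpow H i = ⊥) :
    OmH k Z H i = ⊥ := by
  rw [eq_bot_iff, OmH]
  refine Submodule.span_le.2 ?_
  rintro x ⟨B, D, ω, hω, hZ, hH, hc, rfl⟩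
  rw [h B D hZ hH hc, Submodule.mem_bot] at hω
  rw [hω, TensorProduct.tmul_zero]
  exact Submodule.zero_mem _

theorem Cc_ins (k : ℤ) (Z : Multiset (Fin n → K)) (H : Submodule K (Fin n → K)) :
    Cc k (ins Z H) H = Cc k Z H := by
  funext i
  rw [Cc, Cc, ins_ins le_rfl]

theorem finrank_sup_span' {F : Submodule K (Fin n → K)} {c : Fin n → K} (hc : c ∉ F) :
    finrank K (F ⊔ Submodule.span K {c} : Submodule K (Fin n → K)) = finrank K F + 1 := by
  have hc0 : c ≠ 0 := fun h => hc (h ▸ F.zero_mem)
  have h1 := Submodule.finrank_sup_add_finrank_inf_eq F (Submodule.span K {c})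
  have h2 : F ⊓ Submodule.span K {c} = ⊥ := by
    rw [eq_bot_iff]
    rintro x ⟨hx, hx'⟩
    obtain ⟨a, rfl⟩ := Submodule.mem_span_singleton.1 hx'
    by_cases ha : a = 0
    · rw [ha, zero_smul]
      exact Submodule.zero_mem _
    · exact absurd (by simpa [smul_smul, inv_mul_cancel₀ ha] using F.smul_mem a⁻¹ hx) hc
  rw [h2, finrank_bot, finrank_span_singleton hc0] at h1
  omega

theorem ins_card_map {P : Module.Dual K (Fin n → K)} {c : Fin n → K} (hP : P c = 1)
    {F : Submodule K (Fin n → K)} (hF : ∀ v ∈ F, P v = 0) (Z : Multiset (Fin n → K)) :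
    (ins (Z.map (fun z => z - P z • c)) F).card = (ins Z (F ⊔ Submodule.span K {c})).card := by
  classical
  unfold ins
  rw [Multiset.filter_map, Multiset.card_map]
  congr 1
  apply Multiset.filter_congr
  intro z _
  constructor
  · intro hz
    have h : z = (z - P z • c) + P z • c := by abel
    rw [h]
    exact Submodule.add_mem_sup hz (Submodule.smul_mem _ _ (Submodule.mem_span_singleton_self c))
  · intro hz
    obtain ⟨y, hy, x, hx, hyx⟩ := Submodule.mem_sup.1 hz
    obtain ⟨a, rfl⟩ := Submodule.mem_span_singleton.1 hx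
    have ha : P z = a := by
      rw [← hyx, map_add, hF y hy, map_smul, hP, zero_add, smul_eq_mul, mul_one]
    have : z - P z • c = y := by
      rw [ha, ← hyx]
      abel
    change z - P z • c ∈ F
    rw [this]
    exact hy

theorem exists_fun' {c : Fin n → K} (hc : c ≠ 0) : ∃ P : Module.Dual K (Fin n → K), P c = 1 := by
  have hc' : c ∉ (⊥ : Submodule K (Fin n → K)) := fun h => hc ((Submodule.mem_bot K).1 h)
  obtain ⟨f, hf, -⟩ := Submodule.exists_le_ker_of_notMem hc'
  exact ⟨(f c)⁻¹ • f, by rw [LinearMap.smul_apply, smul_eq_mul, inv_mul_cancel₀ hf]⟩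

end aux

theorem van (chn : CHNStmt) (sge : SGEStmt) (sgi : SGIStmt) (sgx : SGXStmt) (omc : OMCStmt)
    (lpw : LPWStmt) (clo : CLOStmt) : VANStmt := by
  intro p hp K _ _ n
  have hp1 : (1 : ℤ) ≤ p := by exact_mod_cast hp.out.one_le
  suffices h : ∀ w : ℕ, ∀ (W : Submodule K (Fin n → K)) (Z : Multiset (Fin n → K)) (k m : ℤ),
      finrank K W = w → (∀ z ∈ Z, z ∈ W) → HYP p W Z k m → ExactAt (Om k Z) m ∧ ExactAt (Cc k Z W) m from
    fun W Z k m => h _ W Z k m rfl
  intro w
  induction w using Nat.strong_induction_on with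
  | _ w ih =>
  intro W Z k m hw hZ hyp
  by_cases hm0 : m < 0
  · exact ⟨exactAt_bot (Om_bot fun B D _ _ => Lpow_neg _ hm0),
      exactAt_bot (OmH_bot fun B D _ _ _ => Lpow_neg _ hm0)⟩
  have hlpw := (lpw K n).2.2.2
  by_cases hmw : (w : ℤ) < m
  · refine ⟨exactAt_bot (Om_bot fun B D hBD _ => hlpw _ _ (lt_of_le_of_lt ?_ hmw)),
      exactAt_bot (OmH_bot fun B D _ _ _ => hlpw _ _ (by rw [hw]; exact hmw))⟩
    have : sp B ≤ W := sp_le.2 fun z hz => hZ z (hBD ▸ Multiset.mem_add.2 (Or.inl hz))
    have := Submodule.finrank_mono this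
    rw [hw] at this
    exact_mod_cast this
  push Not at hm0 hmw
  have hypW := hyp (by rw [hw]; exact hmw)
  rw [hw] at hypW
  -- the subspaces of smaller dimension
  have key : ∀ (H : Submodule K (Fin n → K)) (j e : ℤ), H < W → (2 * p - 1) * (-1) + p * e ≤ j →
      0 ≤ e → ExactAt (Cc (k + j) Z H) (m - e) := by
    intro H j e hH hje he
    have hh : finrank K H < w := hw ▸ Submodule.finrank_lt_finrank_of_lt hH
    have h := (ih (finrank K H) hh H (ins Z H) (k + j) (m - e) rfl (fun z hz => (mem_ins.1 hz).2) ?_).2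
    · rwa [Cc_ins] at h
    intro _ F hF
    have hF' := hypW F (hF.trans hH.le)
    rw [ins_ins hF]
    have hh' : ((finrank K H : ℕ) : ℤ) + 1 ≤ w := by exact_mod_cast hh
    nlinarith [mul_nonneg (by linarith : (0 : ℤ) ≤ 2 * p - 1) (by linarith : (0 : ℤ) ≤ w - finrank K H - 1)]
  have hOm : ExactAt (Om k Z) m := by
    rcases Nat.eq_zero_or_pos w with hw0 | hwpos
    · subst hw0
      have hW : W = ⊥ := Submodule.finrank_eq_zero.1 hw
      refine exactAt_bot (Om_bot fun B D hBD hB => ?_)
      exfalso
      have h := hypW W le_rfl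
      rw [ins_eq_self hZ, hw] at h
      have hm : m = 0 := le_antisymm (by exact_mod_cast hmw) hm0
      have hcard : (B.card : ℤ) ≤ Z.card := by
        rw [← hBD, Multiset.card_add]
        push_cast
        linarith [Int.natCast_nonneg D.card]
      subst hm
      push_cast at h
      linarith
    · have hWb : W ≠ ⊥ := by
        rintro rfl
        rw [finrank_bot] at hw
        omega
      obtain ⟨c, hcW, hc0⟩ := Submodule.exists_mem_ne_zero_of_ne_bot hWb
      obtain ⟨P, hP⟩ := exists_fun' hc0
      refine chn K n k Z c m ?_ (Z.card + 1) ?_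
      · intro j H hcH
        by_cases hHW : H ≤ W
        · have hlt : H < W := lt_of_le_of_ne hHW (fun h => hcH (h ▸ hcW))
          have h1 := key H (1 + j) 1 hlt (by linarith) (by norm_num)
          have h2 := key H (1 + j) 2 hlt (by linarith) (by norm_num)
          rw [← add_assoc] at h1 h2
          exact ⟨h1, h2⟩
        · have hb : ∀ i, Cc (k + 1 + j) Z H i = ⊥ := fun i =>
            (clo K n (k + 1 + j) (ins Z H)).2.2.2.2.2.2.2.2.1 H W i
              (fun z hz => hZ z (mem_ins.1 hz).1) hHW
          exact ⟨exactAt_bot (hb _), exactAt_bot (hb _)⟩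
      · have hk : 0 ≤ k := by
          have h := hypW ⊥ bot_le
          rw [finrank_bot] at h
          have h1 : (0 : ℤ) ≤ p * (w - m + 1) := mul_nonneg (by linarith) (by linarith)
          have h2 : (0 : ℤ) ≤ (p - 1) * w := mul_nonneg (by linarith) (Int.natCast_nonneg _)
          have h3 := Int.natCast_nonneg (ins Z (⊥ : Submodule K (Fin n → K))).card
          push_cast at h
          linarith
        have e1 : Om (k + ((Z.card + 1 : ℕ) : ℤ)) (Multiset.replicate (Z.card + 1) c + Z) = Sig k Z c := by
          funext i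
          exact sge K n k Z c i (Z.card + 1) hk (Nat.lt_succ_self _)
        rw [e1]
        set Z' := Z.map (fun z => z - P z • c) with hZ'
        have e2 : Sig k Z' c = Sig k Z c := by
          funext i
          refine sgi K n k Z c i _ fun z _ => ?_
          have : z - P z • c - z = (- P z) • c := by
            rw [neg_smul]
            abel
          rw [this]
          exact Submodule.smul_mem _ _ (Submodule.mem_span_singleton_self c)
        rw [← e2]
        have hZ'P : ∀ z ∈ Z', P z = 0 := by
          intro z hz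
          obtain ⟨y, _, rfl⟩ := Multiset.mem_map.1 hz
          rw [map_sub, map_smul, hP, smul_eq_mul, mul_one, sub_self]
        set W' : Submodule K (Fin n → K) := W ⊓ LinearMap.ker P with hW'
        have hZ'W : ∀ z ∈ Z', z ∈ W' := by
          intro z hz
          refine ⟨?_, hZ'P z hz⟩
          obtain ⟨y, hy, rfl⟩ := Multiset.mem_map.1 hz
          exact W.sub_mem (hZ y hy) (W.smul_mem _ hcW)
        have hW'P : ∀ v ∈ W', P v = 0 := fun v hv => hv.2
        have hcW' : c ∉ W' := fun h => by
          have := hW'P c h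
          rw [hP] at this
          exact one_ne_zero this
        have hWs : W' ⊔ Submodule.span K {c} = W := by
          apply le_antisymm
          · exact sup_le inf_le_left ((Submodule.span_singleton_le_iff_mem _ _).2 hcW)
          · intro v hv
            have h : v = (v - P v • c) + P v • c := by abel
            rw [h]
            refine Submodule.add_mem_sup ⟨W.sub_mem hv (W.smul_mem _ hcW), ?_⟩
              (Submodule.smul_mem _ _ (Submodule.mem_span_singleton_self c))
            change P (v - P v • c) = 0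
            rw [map_sub, map_smul, hP, smul_eq_mul, mul_one, sub_self]
        have hw' : finrank K W' + 1 = w := by
          rw [← finrank_sup_span' hcW', hWs, hw]
        have key2 : ∀ (l e : ℤ), p * e ≤ l → 0 ≤ e → ExactAt (Om (k + l) Z') (m - e) := by
          intro l e hl he
          refine (ih (finrank K W') (by omega) W' Z' (k + l) (m - e) rfl hZ'W ?_).1
          intro _ F hF
          have hcF : c ∉ F := fun h => hcW' (hF h)
          have hF' := hypW (F ⊔ Submodule.span K {c}) (hWs ▸ sup_le_sup_right hF _)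
          rw [← ins_card_map hP (fun v hv => hW'P v (hF hv)), finrank_sup_span' hcF] at hF'
          have hw'' : (w : ℤ) = finrank K W' + 1 := by exact_mod_cast hw'.symm
          rw [hw''] at hF'
          push_cast at hF'
          nlinarith
        refine sgx p K n k Z' c m P hP hZ'P ?_ ?_
        · have h := key2 0 0 (by simp) le_rfl
          rwa [add_zero, sub_zero] at h
        · intro l hl
          have hl' : (p : ℤ) ≤ l := by exact_mod_cast hl
          have h1 := key2 l 0 (by simp) le_rfl
          have h2 := key2 l 1 (by linarith) (by norm_num)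
          rw [sub_zero] at h1
          exact ⟨h1, h2⟩
  refine ⟨hOm, omc K n k Z W m hZ hOm fun H hH => ?_⟩
  have h := key H 0 1 hH (by linarith) (by norm_num)
  rwa [add_zero] at h

end Pool.Agent.ATB.H63
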